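import Mathlib

set_option autoImplicit false

namespace Pool.Agent.Results.MP_aefbf4_co.HeadStartMatters

open Relation

/-! ### Graphs and the percolation game -/

/-- A graph with vertex set `V` and edge set `E`; multiple edges (and loops) are allowed. -/
structure MultiGraph (V E : Type) where
  /-- the endpoints of an edge -/
  ends : E → Sym2 V

/-- Two vertices are joined by an edge outside `B`. -/
def AdjOff {V E : Type} (G : MultiGraph V E) (B : Set E) (u v : V) : Prop :=
  ∃ e, e ∉ B ∧ G.ends e = s(u, v)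

/-- The connected component of `v` in the graph obtained by deleting the edges in `B`. -/
def component {V E : Type} (G : MultiGraph V E) (B : Set E) (v : V) : Set V :=
  {u | ReflTransGen (AdjOff G B) v u}

/-- The graph is connected. -/
def IsConnected {V E : Type} (G : MultiGraph V E) : Prop := ∀ u v : V, v ∈ component G ∅ u

/-- `history f n` is the list `[f n, ..., f 1, f 0]`. -/
def history {A : Type} (f : ℕ → A) : ℕ → List A
  | 0 => [f 0]
  | n + 1 => f (n + 1) :: history f n

/-- The set of edges counted as claimed by Maker before her `(n+1)`-st turn, if her head start is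
`F` and in her `(k+1)`-st turn she claims the set `P k`. -/
def makerSet {E : Type} [DecidableEq E] (F : Finset E) (P : ℕ → Finset E) : ℕ → Finset E
  | 0 => F
  | n + 1 => makerSet F P n ∪ P n

/-- The set of edges claimed by Breaker in his first `n` turns, if he uses the strategy `σ` and
Maker claims the set `P k` in her `(k+1)`-st turn.  A strategy assigns a reply to each list of
moves of Maker (last move first). -/
def breakerSet {E : Type} [DecidableEq E] (σ : List (Finset E) → Finset E) (P : ℕ → Finset E) :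
    ℕ → Finset E
  | 0 => ∅
  | n + 1 => breakerSet σ P n ∪ σ (history P n)

/-- `Q` is a legal move of a player who has to claim `k` edges in a position in which Maker has
the edges `M` and Breaker the edges `B`: it consists of `k` unclaimed edges. -/
def Legal {E : Type} [DecidableEq E] (k : ℕ) (M B Q : Finset E) : Prop :=
  Q.card = k ∧ Disjoint Q (M ∪ B)

/-- Breaker has a winning strategy in the `(p,q)`-percolation game on `(G, v₀)` with head start
`F`: a strategy `σ` such that for every sequence of legal moves of Maker all replies of Breaker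
are legal and after finitely many rounds the component of `v₀` in the graph of all edges not
claimed by Breaker is finite. -/
def BreakerWins {V E : Type} [DecidableEq E] (G : MultiGraph V E) (p q : ℕ) (v₀ : V)
    (F : Finset E) : Prop :=
  ∃ σ : List (Finset E) → Finset E, ∀ P : ℕ → Finset E,
    (∀ n, Legal p (makerSet F P n) (breakerSet σ P n) (P n)) →
    (∀ n, Legal q (makerSet F P (n + 1)) (breakerSet σ P n) (σ (history P n))) ∧
    ∃ n, (component G (breakerSet σ P n : Set E) v₀).Finite

section general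

variable {V E : Type} [DecidableEq E]

theorem component_mono {G : MultiGraph V E} {B B' : Set E} (h : B ⊆ B') (v : V) :
    component G B' v ⊆ component G B v := by
  intro u hu
  have key : ∀ a b, AdjOff G B' a b → AdjOff G B a b := by
    rintro a b ⟨e, he, h2⟩
    exact ⟨e, fun hc => he (h hc), h2⟩
  exact ReflTransGen.mono key _ _ hu

theorem exists_legal [Infinite E] (k : ℕ) (M B N : Finset E) (hN : N.card ≤ k)
    (hd : Disjoint N (M ∪ B)) : ∃ Q, Legal k M B Q ∧ N ⊆ Q := by
  have hinf : ((M ∪ B ∪ N : Finset E) : Set E)ᶜ.Infinite :=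
    (M ∪ B ∪ N).finite_toSet.infinite_compl
  obtain ⟨T, hT, hTc⟩ := hinf.exists_subset_card_eq (k - N.card)
  have hTd : ∀ x ∈ T, x ∉ M ∪ B ∪ N := fun x hx hx' => hT hx (by simpa using hx')
  refine ⟨N ∪ T, ⟨?_, ?_⟩, Finset.subset_union_left⟩
  · rw [Finset.card_union_of_disjoint, hTc]
    · omega
    · rw [Finset.disjoint_left]
      intro x hx hx'
      exact hTd x hx' (Finset.mem_union_right _ hx)
  · rw [Finset.disjoint_union_left]
    refine ⟨hd, ?_⟩
    rw [Finset.disjoint_left]
    intro x hx hx'
    exact hTd x hx (Finset.mem_union_left _ hx')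

theorem exists_reply [Infinite E] (k : ℕ) (M B N : Finset E) (hN : N.card ≤ k)
    (hd : Disjoint N M) : ∃ Q, Legal k M B Q ∧ N ⊆ B ∪ Q := by
  obtain ⟨Q, hQ, hNQ⟩ := exists_legal k M B (N \ B)
    (le_trans (Finset.card_le_card Finset.sdiff_subset) hN) (by
      rw [Finset.disjoint_left]
      intro x hx hx'
      rw [Finset.mem_sdiff] at hx
      rcases Finset.mem_union.mp hx' with h | h
      · exact Finset.disjoint_left.mp hd hx.1 h
      · exact hx.2 h)
  refine ⟨Q, hQ, ?_⟩
  intro x hx
  by_cases hB : x ∈ B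
  · exact Finset.mem_union_left _ hB
  · exact Finset.mem_union_right _ (hNQ (Finset.mem_sdiff.mpr ⟨hx, hB⟩))

/-- The list `[f (n-1), ..., f 0]`. -/
def pre {A : Type} (f : ℕ → A) : ℕ → List A
  | 0 => []
  | n + 1 => history f n

theorem history_eq {A : Type} (f : ℕ → A) (n : ℕ) : history f n = f n :: pre f n := by
  cases n <;> rfl

theorem pre_length {A : Type} (f : ℕ → A) (n : ℕ) : (pre f n).length = n := by
  induction n with
  | zero => rfl
  | succ n ih => show (history f n).length = n + 1; rw [history_eq]; simp [ih]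

/-- A sequence of position predicates that Breaker can follow gives a winning strategy. -/
theorem breakerWins_of_stages {G : MultiGraph V E} {p q : ℕ} {v₀ : V} {F : Finset E}
    (St : ℕ → Finset E → Finset E → Prop) (h0 : St 0 F ∅)
    (hstep : ∀ k M B P, St k M B → Legal p M B P →
      ∃ Q, Legal q (M ∪ P) B Q ∧ St (k + 1) (M ∪ P) (B ∪ Q))
    (n₀ : ℕ) (hfin : ∀ M B, St n₀ M B → (component G (B : Set E) v₀).Finite) :
    BreakerWins G p q v₀ F := by
  classical
  choose! reply hreply1 hreply2 using hstep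
  let pos : List (Finset E) → Finset E × Finset E := fun l => List.rec (F, ∅)
    (fun P l p => (p.1 ∪ P, p.2 ∪ reply l.length p.1 p.2 P)) l
  let σ : List (Finset E) → Finset E := fun l => match l with
    | [] => ∅
    | P :: l => reply l.length (pos l).1 (pos l).2 P
  refine ⟨σ, fun P hP => ?_⟩
  have hpos : ∀ n, pos (pre P n) = (makerSet F P n, breakerSet σ P n) := by
    intro n
    induction n with
    | zero => rfl
    | succ n ih =>
      show pos (history P n) = _
      rw [history_eq]
      show ((pos (pre P n)).1 ∪ P n, (pos (pre P n)).2 ∪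
        reply (pre P n).length (pos (pre P n)).1 (pos (pre P n)).2 (P n)) = _
      have e1 : makerSet F P (n + 1) = makerSet F P n ∪ P n := rfl
      have e2 : breakerSet σ P (n + 1) = breakerSet σ P n ∪ σ (history P n) := rfl
      rw [e1, e2, history_eq]
      show _ = (makerSet F P n ∪ P n, breakerSet σ P n ∪
        reply (pre P n).length (pos (pre P n)).1 (pos (pre P n)).2 (P n))
      rw [ih]
  have hσ : ∀ n, σ (history P n) = reply n (makerSet F P n) (breakerSet σ P n) (P n) := by
    intro n
    rw [history_eq]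
    show reply (pre P n).length (pos (pre P n)).1 (pos (pre P n)).2 (P n) = _
    rw [hpos, pre_length]
  have hSt : ∀ n, St n (makerSet F P n) (breakerSet σ P n) := by
    intro n
    induction n with
    | zero => exact h0
    | succ n ih =>
      show St (n + 1) (makerSet F P n ∪ P n) (breakerSet σ P n ∪ σ (history P n))
      rw [hσ]
      exact hreply2 n _ _ _ ih (hP n)
  refine ⟨fun n => ?_, n₀, hfin _ _ (hSt n₀)⟩
  rw [hσ]
  exact hreply1 n _ _ _ (hSt n) (hP n)

/-- If Maker can always stay in a safe position then Breaker has no winning strategy. -/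
theorem not_breakerWins_of_safe [Infinite E] {G : MultiGraph V E} {p q : ℕ} {v₀ : V}
    {F : Finset E} (Safe : Finset E → Finset E → Prop) (h0 : Safe F ∅)
    (hstep : ∀ M B, Safe M B → ∃ P, Legal p M B P ∧
      ∀ Q, Legal q (M ∪ P) B Q → Safe (M ∪ P) (B ∪ Q))
    (hinf : ∀ M B, Safe M B → (component G (B : Set E) v₀).Infinite) :
    ¬ BreakerWins G p q v₀ F := by
  classical
  rintro ⟨σ, hσ⟩
  have hstep' : ∀ M B, ∃ P, Legal p M B P ∧
      (Safe M B → ∀ Q, Legal q (M ∪ P) B Q → Safe (M ∪ P) (B ∪ Q)) := by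
    intro M B
    by_cases h : Safe M B
    · obtain ⟨P, h1, h2⟩ := hstep M B h
      exact ⟨P, h1, fun _ => h2⟩
    · obtain ⟨P, h1, _⟩ := exists_legal p M B ∅ (by simp) (by simp)
      exact ⟨P, h1, fun h' => absurd h' h⟩
  choose mv hmv1 hmv2 using hstep'
  let S : ℕ → (Finset E × Finset E) × List (Finset E) := fun n => Nat.rec ((F, ∅), [])
    (fun _ s => ((s.1.1 ∪ mv s.1.1 s.1.2, s.1.2 ∪ σ (mv s.1.1 s.1.2 :: s.2)),
      mv s.1.1 s.1.2 :: s.2)) n
  let P : ℕ → Finset E := fun n => mv (S n).1.1 (S n).1.2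
  have hSs : ∀ n, S (n + 1) = (((S n).1.1 ∪ P n, (S n).1.2 ∪ σ (P n :: (S n).2)),
      P n :: (S n).2) := fun n => rfl
  have hpre : ∀ n, pre P n = (S n).2 := by
    intro n
    induction n with
    | zero => rfl
    | succ n ih =>
      show history P n = _
      rw [history_eq, ih, hSs]
  have hpos : ∀ n, (S n).1 = (makerSet F P n, breakerSet σ P n) := by
    intro n
    induction n with
    | zero => rfl
    | succ n ih =>
      rw [hSs]
      show ((S n).1.1 ∪ P n, (S n).1.2 ∪ σ (P n :: (S n).2)) =
        (makerSet F P n ∪ P n, breakerSet σ P n ∪ σ (history P n))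
      rw [history_eq, hpre, ih]
  have hPn : ∀ n, P n = mv (makerSet F P n) (breakerSet σ P n) := by
    intro n
    show mv (S n).1.1 (S n).1.2 = _
    rw [hpos]
  have hlegal : ∀ n, Legal p (makerSet F P n) (breakerSet σ P n) (P n) := by
    intro n
    rw [hPn]
    exact hmv1 _ _
  obtain ⟨hσl, n, hn⟩ := hσ P hlegal
  have hsafe : ∀ n, Safe (makerSet F P n) (breakerSet σ P n) := by
    intro n
    induction n with
    | zero => exact h0
    | succ n ih =>
      show Safe (makerSet F P n ∪ P n) (breakerSet σ P n ∪ σ (history P n))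
      have h1 := hmv2 _ _ ih (σ (history P n))
      rw [← hPn] at h1
      exact h1 (hσl n)
  exact hinf _ _ (hsafe n) hn

end general

/-! ### The subdivided ternary tree -/

/-- Words over a three-letter alphabet. -/
abbrev W : Type := List (Fin 3)

/-- The edges: for each word `w` the fifteen edges `(w, 0), ..., (w, 14)` of the path above the
branching vertex `w`. -/
abbrev Ed : Type := W × Fin 15

/-- The vertices: `some x` is the lower endpoint of the edge `x`, and `none` is the top vertex. -/
abbrev Vx : Type := Option Ed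

/-- The upper endpoint of an edge. -/
def par : Ed → Vx
  | (w, i) => if h : i.val < 14 then some (w, ⟨i.val + 1, by omega⟩) else
      match w with
      | [] => none
      | _ :: w' => some (w', 0)

/-- The rooted ternary tree with every edge replaced by a path of length `15` (and a pendant path
attached to the root). -/
def T : MultiGraph Vx Ed := ⟨fun x => s(some x, par x)⟩

theorem par_lt {w : W} {i : Fin 15} (h : i.val < 14) :
    par (w, i) = some (w, ⟨i.val + 1, by omega⟩) := by
  unfold par; simp [h]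

theorem par_nil : par ([], 14) = none := by
  unfold par; simp

theorem par_cons (c : Fin 3) (w : W) : par (c :: w, 14) = some (w, 0) := by
  unfold par; simp

theorem fin_cases' (i : Fin 15) : i.val < 14 ∨ i = 14 := by
  rcases Nat.lt_or_ge i.val 14 with h | h
  · exact Or.inl h
  · right
    apply Fin.ext
    show i.val = 14
    omega

/-- The depth of a vertex. -/
def depth : Vx → ℕ
  | none => 0
  | some (w, i) => 15 * w.length + (15 - i.val)

theorem depth_par (x : Ed) : depth (par x) + 1 = depth (some x) := by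
  obtain ⟨w, i⟩ := x
  rcases fin_cases' i with h | h
  · rw [par_lt h]
    simp only [depth]
    omega
  · subst h
    cases w with
    | nil => rw [par_nil]; simp [depth]
    | cons c w =>
      rw [par_cons]
      simp only [depth, List.length_cons]
      have : ((14 : Fin 15) : ℕ) = 14 := rfl
      have h0 : ((0 : Fin 15) : ℕ) = 0 := rfl
      rw [this, h0]
      omega

theorem ends_injective : Function.Injective T.ends := by
  intro x y h
  have h' : s(some x, par x) = s(some y, par y) := h
  rw [Sym2.eq_iff] at h'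
  rcases h' with ⟨h1, _⟩ | ⟨h1, h2⟩
  · exact Option.some.inj h1
  · have e1 := depth_par x
    have e2 := depth_par y
    rw [h2, h1] at e1
    omega

theorem not_diag (x : Ed) : ¬ (T.ends x).IsDiag := by
  intro h
  have h' : some x = par x := h
  have e1 := depth_par x
  rw [← h'] at e1
  omega

/-- Two vertices are joined by the edge `e` iff one is its lower and the other its upper end. -/
theorem ends_eq {e : Ed} {u v : Vx} (h : T.ends e = s(u, v)) :
    (u = some e ∧ v = par e) ∨ (u = par e ∧ v = some e) := by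
  have h' : s(some e, par e) = s(u, v) := h
  rw [Sym2.eq_iff] at h'
  rcases h' with ⟨h1, h2⟩ | ⟨h1, h2⟩
  · exact Or.inl ⟨h1.symm, h2.symm⟩
  · exact Or.inr ⟨h2.symm, h1.symm⟩

theorem adj_par (B : Set Ed) {e : Ed} (he : e ∉ B) : AdjOff T B (some e) (par e) :=
  ⟨e, he, rfl⟩

theorem adj_par' (B : Set Ed) {e : Ed} (he : e ∉ B) : AdjOff T B (par e) (some e) :=
  ⟨e, he, Sym2.eq_swap⟩

theorem isConnected : IsConnected T := by
  have h1 : ∀ n (v : Vx), depth v = n → ReflTransGen (AdjOff T ∅) v none := by
    intro n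
    induction n with
    | zero =>
      intro v hv
      cases v with
      | none => exact ReflTransGen.refl
      | some x => have := depth_par x; omega
    | succ n ih =>
      intro v hv
      cases v with
      | none => exact ReflTransGen.refl
      | some x =>
        have := depth_par x
        exact ReflTransGen.head (adj_par ∅ (by simp)) (ih (par x) (by omega))
  have h2 : ∀ n (v : Vx), depth v = n → ReflTransGen (AdjOff T ∅) none v := by
    intro n
    induction n with
    | zero =>
      intro v hv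
      cases v with
      | none => exact ReflTransGen.refl
      | some x => have := depth_par x; omega
    | succ n ih =>
      intro v hv
      cases v with
      | none => exact ReflTransGen.refl
      | some x =>
        have := depth_par x
        exact ReflTransGen.tail (ih (par x) (by omega)) (adj_par' ∅ (by simp))
  intro u v
  exact (h1 _ u rfl).trans (h2 _ v rfl)

theorem locallyFinite (v : Vx) : {e | v ∈ T.ends e}.Finite := by
  cases v with
  | none =>
    refine Set.Finite.subset (Set.finite_singleton (([], 14) : Ed)) ?_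
    rintro ⟨w, i⟩ he
    have he' : (none : Vx) ∈ s(some ((w, i) : Ed), par (w, i)) := he
    rw [Sym2.mem_iff] at he'
    rcases he' with h | h
    · exact absurd h (by simp)
    · rcases fin_cases' i with hi | hi
      · rw [par_lt hi] at h; exact absurd h (by simp)
      · subst hi
        cases w with
        | nil => rfl
        | cons c w => rw [par_cons] at h; exact absurd h (by simp)
  | some x =>
    obtain ⟨u, j⟩ := x
    refine Set.Finite.subset (((Finset.univ.image (fun i : Fin 15 => ((u, i) : Ed))) ∪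
      (Finset.univ.image (fun c : Fin 3 => ((c :: u, 14) : Ed)))).finite_toSet) ?_
    rintro ⟨w, i⟩ he
    have he' : (some ((u, j) : Ed) : Vx) ∈ s(some ((w, i) : Ed), par (w, i)) := he
    rw [Sym2.mem_iff] at he'
    simp only [Finset.coe_union, Finset.coe_image, Finset.coe_univ, Set.image_univ,
      Set.mem_union, Set.mem_range]
    rcases he' with h | h
    · left
      have := Option.some.inj h
      rw [Prod.mk.injEq] at this
      exact ⟨i, by rw [this.1]⟩
    · rcases fin_cases' i with hi | hi
      · left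
        rw [par_lt hi] at h
        have := Option.some.inj h
        rw [Prod.mk.injEq] at this
        exact ⟨i, by rw [this.1]⟩
      · subst hi
        cases w with
        | nil => rw [par_nil] at h; exact absurd h (by simp)
        | cons c w =>
          right
          rw [par_cons] at h
          have := Option.some.inj h
          rw [Prod.mk.injEq] at this
          exact ⟨c, by rw [this.1]⟩

/-! ### Subtrees -/

/-- The vertices below (and including) the lower endpoint of the edge `x`. -/
def D (x : Ed) : Set Vx :=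
  {v | ∃ y : Ed, v = some y ∧ ((y.1 = x.1 ∧ y.2 ≤ x.2) ∨ ∃ c : Fin 3, (c :: x.1) <:+ y.1)}

theorem D_up {x y : Ed} (h : par y ∈ D x) : some y ∈ D x := by
  obtain ⟨u, j⟩ := y
  obtain ⟨z, hz, hz2⟩ := h
  refine ⟨(u, j), rfl, ?_⟩
  rcases fin_cases' j with hj | hj
  · rw [par_lt hj] at hz
    have := Option.some.inj hz
    subst this
    rcases hz2 with ⟨h1, h2⟩ | h1
    · left
      refine ⟨h1, le_trans ?_ h2⟩
      show j.val ≤ j.val + 1
      omega
    · exact Or.inr h1
  · subst hj
    cases u with
    | nil => rw [par_nil] at hz; exact absurd hz (by simp)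
    | cons c u =>
      rw [par_cons] at hz
      have := Option.some.inj hz
      subst this
      right
      rcases hz2 with ⟨h1, h2⟩ | ⟨c', h1⟩
      · refine ⟨c, ?_⟩
        show (c :: x.1) <:+ (c :: u)
        have h1' : u = x.1 := h1
        rw [h1']
      · exact ⟨c', List.suffix_cons_iff.mpr (Or.inr h1)⟩

theorem D_down {x y : Ed} (h : some y ∈ D x) (hne : y ≠ x) : par y ∈ D x := by
  obtain ⟨u, j⟩ := y
  obtain ⟨z, hz, hz2⟩ := h
  have hz' := Option.some.inj hz
  subst hz'
  rcases fin_cases' j with hj | hj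
  · rw [par_lt hj]
    refine ⟨_, rfl, ?_⟩
    rcases hz2 with ⟨h1, h2⟩ | h1
    · left
      refine ⟨h1, ?_⟩
      have h3 : j ≠ x.2 := by
        intro hc
        apply hne
        exact Prod.ext h1 hc
      have h4 : j.val ≤ x.2.val := h2
      have h5 : j.val ≠ x.2.val := fun hc => h3 (Fin.ext hc)
      show j.val + 1 ≤ x.2.val
      omega
    · exact Or.inr h1
  · subst hj
    rcases hz2 with ⟨h1, h2⟩ | ⟨c', h1⟩
    · exfalso
      apply hne
      have h4 : (14 : Fin 15).val ≤ x.2.val := h2
      have h6 : ((14 : Fin 15) : ℕ) = 14 := rfl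
      have h5 : x.2 = 14 := by
        apply Fin.ext
        rw [h6]
        have := x.2.isLt
        omega
      exact Prod.ext h1 h5.symm
    · cases u with
      | nil => exact absurd h1 (by simp)
      | cons c u =>
        rw [par_cons]
        refine ⟨_, rfl, ?_⟩
        have h1' : (c' :: x.1) <:+ (c :: u) := h1
        rw [List.suffix_cons_iff] at h1'
        rcases h1' with h2 | h2
        · left
          injection h2 with h3 h4
          exact ⟨h4.symm, Fin.zero_le _⟩
        · exact Or.inr ⟨c', h2⟩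

theorem comp_avoid {x : Ed} {B : Set Ed} {r : Vx} (hx : x ∈ B) (hr : r ∉ D x) :
    ∀ v ∈ component T B r, v ∉ D x := by
  intro v hv
  induction hv with
  | refl => exact hr
  | tail _ hbc ih =>
    obtain ⟨e, he, h2⟩ := hbc
    have hne : e ≠ x := fun hc => he (hc ▸ hx)
    rcases ends_eq h2 with ⟨h3, h4⟩ | ⟨h3, h4⟩
    · intro hc; rw [h4] at hc; rw [h3] at ih; exact ih (D_up hc)
    · intro hc; rw [h4] at hc; rw [h3] at ih; exact ih (D_down hc hne)

theorem comp_inside {x : Ed} {B : Set Ed} {r : Vx} (hx : x ∈ B) (hr : r ∈ D x) :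
    ∀ v ∈ component T B r, v ∈ D x := by
  intro v hv
  induction hv with
  | refl => exact hr
  | tail _ hbc ih =>
    obtain ⟨e, he, h2⟩ := hbc
    have hne : e ≠ x := fun hc => he (hc ▸ hx)
    rcases ends_eq h2 with ⟨h3, h4⟩ | ⟨h3, h4⟩
    · rw [h4]; rw [h3] at ih; exact D_down ih hne
    · rw [h4]; rw [h3] at ih; exact D_up ih

/-! ### Boxes -/

/-- The vertices in the region of the word `w`. -/
def RV (w : W) : Set Vx := {v | ∃ y : Ed, v = some y ∧ w <:+ y.1}

/-- The part of the component of `r` outside the regions of the words in `X` is finite. -/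
def Cov (B : Finset Ed) (r : Vx) (X : Finset W) : Prop :=
  {v | v ∈ component T (B : Set Ed) r ∧ ∀ w ∈ X, v ∉ RV w}.Finite

/-- The regions of the words in `X` are pairwise disjoint. -/
def AC (X : Finset W) : Prop := ∀ w ∈ X, ∀ w' ∈ X, w ≠ w' → ∀ u, w <:+ u → ¬ w' <:+ u

/-- The number of edges of `A` in the region of `w`. -/
def wt (A : Finset Ed) (w : W) : ℕ := (A.filter (fun x => w <:+ x.1)).card

/-- The total number of edges of `A` in the regions of the words in `X`. -/
def Wt (A : Finset Ed) (X : Finset W) : ℕ := ∑ w ∈ X, wt A w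

/-- The children of a word. -/
def kids (w : W) : Finset W := Finset.univ.image (fun c : Fin 3 => c :: w)

theorem mem_kids {w u : W} : u ∈ kids w ↔ ∃ c : Fin 3, u = c :: w := by
  unfold kids
  simp only [Finset.mem_image, Finset.mem_univ, true_and]
  constructor
  · rintro ⟨c, h⟩; exact ⟨c, h.symm⟩
  · rintro ⟨c, h⟩; exact ⟨c, h.symm⟩

theorem card_kids (w : W) : (kids w).card = 3 := by
  unfold kids
  rw [Finset.card_image_of_injective]
  · simp
  · intro a b h
    injection h

theorem suffix_cases {w u : W} (h : w <:+ u) : u = w ∨ ∃ c : Fin 3, (c :: w) <:+ u := by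
  obtain ⟨v, hv⟩ := h
  rcases List.eq_nil_or_concat v with h | ⟨v', c, h⟩
  · left; rw [h] at hv; simpa using hv.symm
  · right
    refine ⟨c, v', ?_⟩
    rw [← hv, h]
    simp

theorem suffix_of_cons {c : Fin 3} {w u : W} (h : (c :: w) <:+ u) : w <:+ u :=
  (List.suffix_cons c w).trans h

theorem suffix_unique {w w' u : W} (h : w <:+ u) (h' : w' <:+ u) (hl : w.length = w'.length) :
    w = w' := (List.suffix_of_suffix_length_le h h' hl.le).eq_of_length hl

/-- The finite set of lower endpoints of the path above `w`. -/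
def seg (w : W) : Set Vx := Set.range fun i : Fin 15 => (some (w, i) : Vx)

theorem seg_finite (w : W) : (seg w).Finite := Set.finite_range _

/-- The expansion of one box. -/
def expand (X : Finset W) (w : W) : Finset W := X.erase w ∪ kids w

theorem expand_origin {X : Finset W} {w : W} {u : W} (hw : w ∈ X) (hu : u ∈ expand X w) :
    (u ∈ X ∧ u ≠ w) ∨ ∃ c : Fin 3, u = c :: w := by
  unfold expand at hu
  rcases Finset.mem_union.mp hu with h | h
  · left
    rw [Finset.mem_erase] at h
    exact ⟨h.2, h.1⟩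
  · right; exact mem_kids.mp h

theorem card_expand {X : Finset W} {w : W} (hX : AC X) (hw : w ∈ X) :
    (expand X w).card = X.card + 2 := by
  unfold expand
  rw [Finset.card_union_of_disjoint, card_kids, Finset.card_erase_of_mem hw]
  · have := Finset.card_pos.mpr ⟨w, hw⟩
    omega
  · rw [Finset.disjoint_left]
    intro u hu hu'
    obtain ⟨c, rfl⟩ := mem_kids.mp hu'
    rw [Finset.mem_erase] at hu
    exact hX w hw (c :: w) hu.2 hu.1.symm (c :: w) (List.suffix_cons c w) (List.suffix_refl _)

theorem AC_expand {X : Finset W} {w : W} (hX : AC X) (hw : w ∈ X) : AC (expand X w) := by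
  intro u hu u' hu' hne z hz hz'
  rcases expand_origin hw hu with ⟨h1, h2⟩ | ⟨c, rfl⟩
  · rcases expand_origin hw hu' with ⟨h3, h4⟩ | ⟨c', rfl⟩
    · exact hX u h1 u' h3 hne z hz hz'
    · exact hX u h1 w hw h2 z hz (suffix_of_cons hz')
  · rcases expand_origin hw hu' with ⟨h3, h4⟩ | ⟨c', rfl⟩
    · exact hX w hw u' h3 h4.symm z (suffix_of_cons hz) hz'
    · exact hne (suffix_unique hz hz' (by simp))

theorem Cov_expand {B : Finset Ed} {r : Vx} {X : Finset W} {w : W} (hw : w ∈ X)
    (h : Cov B r X) : Cov B r (expand X w) := by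
  refine Set.Finite.subset (h.union (seg_finite w)) ?_
  rintro v ⟨hv, hv2⟩
  by_cases hw2 : v ∈ RV w
  · right
    obtain ⟨y, rfl, hy⟩ := hw2
    rcases suffix_cases hy with h1 | ⟨c, h1⟩
    · exact ⟨y.2, by rw [← h1]⟩
    · exfalso
      exact hv2 (c :: w) (Finset.mem_union_right _ (mem_kids.mpr ⟨c, rfl⟩)) ⟨y, rfl, h1⟩
  · left
    refine ⟨hv, fun u hu => ?_⟩
    by_cases huw : u = w
    · rw [huw]; exact hw2
    · exact hv2 u (Finset.mem_union_left _ (Finset.mem_erase.mpr ⟨huw, hu⟩))

theorem Cov_cut {B : Finset Ed} {r : Vx} {X K : Finset W} (h : Cov B r X)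
    (hK : ∀ w ∈ K, ∃ i : Fin 15, (w, i) ∈ B ∧ r ∉ D (w, i)) : Cov B r (X \ K) := by
  have hfin : (⋃ w ∈ K, seg w).Finite := K.finite_toSet.biUnion (fun w _ => seg_finite w)
  refine Set.Finite.subset (h.union hfin) ?_
  rintro v ⟨hv, hv2⟩
  by_cases hex : ∃ w ∈ K, v ∈ RV w
  · right
    obtain ⟨w, hwK, hw2⟩ := hex
    obtain ⟨i, hi, hri⟩ := hK w hwK
    obtain ⟨y, rfl, hy⟩ := hw2
    have h1 := comp_avoid (x := (w, i)) (B := (B : Set Ed)) (by exact_mod_cast hi) hri _ hv
    rcases suffix_cases hy with h2 | h2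
    · rw [Set.mem_iUnion₂]
      exact ⟨w, hwK, ⟨y.2, by rw [← h2]⟩⟩
    · exfalso
      exact h1 ⟨y, rfl, Or.inr h2⟩
  · left
    push Not at hex
    refine ⟨hv, fun u hu => ?_⟩
    by_cases huK : u ∈ K
    · exact hex u huK
    · exact hv2 u (Finset.mem_sdiff.mpr ⟨hu, huK⟩)

theorem Cov_mono {B B' : Finset Ed} (hB : B ⊆ B') {r : Vx} {X : Finset W} (h : Cov B r X) :
    Cov B' r X := by
  refine Set.Finite.subset h ?_
  rintro v ⟨hv, hv2⟩
  exact ⟨component_mono (by exact_mod_cast hB) r hv, hv2⟩

theorem Cov_empty {B : Finset Ed} {r : Vx} (h : Cov B r ∅) :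
    (component T (B : Set Ed) r).Finite := by
  refine Set.Finite.subset h ?_
  intro v hv
  exact ⟨hv, fun w hw => absurd hw (Finset.notMem_empty w)⟩

theorem Wt_union_le {A P : Finset Ed} {X : Finset W} (hX : AC X) :
    Wt (A ∪ P) X ≤ Wt A X + P.card := by
  have h1 : Wt (A ∪ P) X ≤ Wt A X + Wt P X := by
    unfold Wt
    rw [← Finset.sum_add_distrib]
    refine Finset.sum_le_sum fun w _ => ?_
    unfold wt
    rw [Finset.filter_union]
    exact Finset.card_union_le _ _
  have h2 : Wt P X ≤ P.card := by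
    unfold Wt wt
    rw [← Finset.card_biUnion]
    · refine Finset.card_le_card ?_
      intro x hx
      rw [Finset.mem_biUnion] at hx
      obtain ⟨w, _, hx⟩ := hx
      exact (Finset.mem_filter.mp hx).1
    · intro w hw w' hw' hne
      show Disjoint _ _
      rw [Finset.disjoint_left]
      intro x hx hx'
      exact hX w hw w' hw' hne x.1 (Finset.mem_filter.mp hx).2 (Finset.mem_filter.mp hx').2
  omega

theorem wt_full {A : Finset Ed} {w : W} (h : ∀ i : Fin 15, (w, i) ∈ A) :
    wt A w = 15 + ∑ u ∈ kids w, wt A u := by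
  have e1 : A.filter (fun x => w <:+ x.1) =
      (Finset.univ.image (fun i : Fin 15 => ((w, i) : Ed))) ∪
      (kids w).biUnion (fun u => A.filter (fun x => u <:+ x.1)) := by
    ext x
    rw [Finset.mem_filter, Finset.mem_union, Finset.mem_image, Finset.mem_biUnion]
    constructor
    · rintro ⟨hx, hw⟩
      rcases suffix_cases hw with h1 | ⟨c, h1⟩
      · left; exact ⟨x.2, Finset.mem_univ _, by rw [← h1]⟩
      · right
        exact ⟨c :: w, mem_kids.mpr ⟨c, rfl⟩, Finset.mem_filter.mpr ⟨hx, h1⟩⟩
    · rintro (⟨i, _, rfl⟩ | ⟨u, hu, hx⟩)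
      · exact ⟨h i, List.suffix_refl _⟩
      · obtain ⟨c, rfl⟩ := mem_kids.mp hu
        rw [Finset.mem_filter] at hx
        exact ⟨hx.1, suffix_of_cons hx.2⟩
  unfold wt
  rw [e1, Finset.card_union_of_disjoint, Finset.card_biUnion, Finset.card_image_of_injective]
  · simp
  · intro a b hab
    exact (Prod.mk.inj hab).2
  · intro u hu u' hu' hne
    show Disjoint _ _
    rw [Finset.disjoint_left]
    intro x hx hx'
    rw [Finset.mem_coe] at hu hu'
    obtain ⟨c, rfl⟩ := mem_kids.mp hu
    obtain ⟨c', rfl⟩ := mem_kids.mp hu'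
    exact hne (suffix_unique (Finset.mem_filter.mp hx).2 (Finset.mem_filter.mp hx').2 (by simp))
  · rw [Finset.disjoint_left]
    intro x hx hx'
    rw [Finset.mem_image] at hx
    obtain ⟨i, _, rfl⟩ := hx
    rw [Finset.mem_biUnion] at hx'
    obtain ⟨u, hu, hx'⟩ := hx'
    obtain ⟨c, rfl⟩ := mem_kids.mp hu
    have h2 := (Finset.mem_filter.mp hx').2
    have h3 := h2.length_le
    simp at h3

theorem Wt_expand {A : Finset Ed} {X : Finset W} {w : W} (hX : AC X) (hw : w ∈ X)
    (h : ∀ i : Fin 15, (w, i) ∈ A) : Wt A (expand X w) + 15 = Wt A X := by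
  have hd : Disjoint (X.erase w) (kids w) := by
    rw [Finset.disjoint_left]
    intro u hu hu'
    obtain ⟨c, rfl⟩ := mem_kids.mp hu'
    rw [Finset.mem_erase] at hu
    exact hX w hw (c :: w) hu.2 hu.1.symm (c :: w) (List.suffix_cons c w) (List.suffix_refl _)
  unfold Wt expand
  rw [Finset.sum_union hd, ← Finset.add_sum_erase X (fun u => wt A u) hw, wt_full h]
  ring

/-- Expanding all fully claimed boxes. -/
theorem exists_saturated (A : Finset Ed) : ∀ N (X : Finset W), Wt A X = N → AC X →
    ∃ (c : ℕ) (X' : Finset W), X'.card = X.card + 2 * c ∧ Wt A X' + 15 * c = Wt A X ∧ AC X' ∧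
      (∀ w' ∈ X', ∃ w ∈ X, w <:+ w') ∧ (∀ B r, Cov B r X → Cov B r X') ∧
      ∀ w ∈ X', ∃ i : Fin 15, (w, i) ∉ A := by
  intro N
  induction N using Nat.strong_induction_on with
  | _ N ih =>
    intro X hN hX
    by_cases hs : ∀ w ∈ X, ∃ i : Fin 15, (w, i) ∉ A
    · exact ⟨0, X, by simp, by simp, hX, fun w hw => ⟨w, hw, List.suffix_refl _⟩,
        fun _ _ h => h, hs⟩
    · push Not at hs
      obtain ⟨w, hw, hfull⟩ := hs
      have h1 := Wt_expand hX hw hfull
      obtain ⟨c, X', h2, h3, h4, h5, h6, h7⟩ :=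
        ih (Wt A (expand X w)) (by omega) (expand X w) rfl (AC_expand hX hw)
      refine ⟨c + 1, X', ?_, ?_, h4, ?_, ?_, h7⟩
      · rw [h2, card_expand hX hw]; ring
      · omega
      · intro w' hw'
        obtain ⟨u, hu, hu'⟩ := h5 w' hw'
        rcases expand_origin hw hu with ⟨h8, _⟩ | ⟨c, rfl⟩
        · exact ⟨u, h8, hu'⟩
        · exact ⟨w, hw, suffix_of_cons hu'⟩
      · intro B r h
        exact h6 B r (Cov_expand hw h)

/-- The `k` heaviest elements of a finite set. -/
theorem exists_top (f : W → ℕ) (X : Finset W) : ∀ k, k ≤ X.card →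
    ∃ K ⊆ X, K.card = k ∧ ∃ x, (∀ a ∈ K, x ≤ f a) ∧ ∀ b ∈ X \ K, f b ≤ x := by
  intro k
  induction k with
  | zero =>
    intro _
    exact ⟨∅, by simp, rfl, ∑ b ∈ X, f b, by simp, fun b hb =>
      Finset.single_le_sum (f := f) (fun _ _ => Nat.zero_le _) (by simpa using hb)⟩
  | succ k ih =>
    intro hk
    obtain ⟨K, hK, hKc, x, h1, h2⟩ := ih (by omega)
    have hne : (X \ K).Nonempty := by
      rw [← Finset.card_pos, Finset.card_sdiff_of_subset hK]
      omega
    obtain ⟨a, ha, hmax⟩ := Finset.exists_max_image (X \ K) f hne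
    rw [Finset.mem_sdiff] at ha
    refine ⟨insert a K, ?_, ?_, f a, ?_, ?_⟩
    · intro z hz
      rcases Finset.mem_insert.mp hz with h | h
      · rw [h]; exact ha.1
      · exact hK h
    · rw [Finset.card_insert_of_notMem ha.2, hKc]
    · intro z hz
      rcases Finset.mem_insert.mp hz with h | h
      · rw [h]
      · exact le_trans (h2 a (Finset.mem_sdiff.mpr ha)) (h1 z h)
    · intro b hb
      apply hmax
      rw [Finset.mem_sdiff] at hb ⊢
      exact ⟨hb.1, fun hc => hb.2 (Finset.mem_insert_of_mem hc)⟩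

/-- The basic step of Breaker: expand all fully claimed boxes, and cut the `k` heaviest ones. -/
theorem core (r : Vx) (M B U : Finset Ed) (X : Finset W) (hAC : AC X) (hCov : Cov B r X)
    (hP : ∀ w ∈ X, ∀ x : Ed, w <:+ x.1 → x ∉ M ∪ U → r ∉ D x) (k : ℕ) :
    ∃ (c : ℕ) (X' : Finset W) (N : Finset Ed), 15 * c ≤ Wt (M ∪ U) X ∧
      AC X' ∧ N.card ≤ k ∧ Disjoint N (M ∪ U) ∧
      (∀ B', B ⊆ B' → N ⊆ B' → Cov B' r X') ∧
      (∀ w ∈ X', ∀ x : Ed, w <:+ x.1 → x ∉ M ∪ U → r ∉ D x) ∧
      X'.card = X.card + 2 * c - k ∧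
      (X.card + 2 * c ≤ k → Wt (M ∪ U) X' = 0) ∧
      (k ≤ X.card + 2 * c → ∃ x, Wt (M ∪ U) X' ≤ X'.card * x ∧
        Wt (M ∪ U) X' + k * x + 15 * c ≤ Wt (M ∪ U) X) := by
  classical
  obtain ⟨c, X1, h1, h2, h3, h4, h5, h6⟩ := exists_saturated (M ∪ U) _ X rfl hAC
  obtain ⟨K, hK, hKc, x, hx1, hx2⟩ := exists_top (wt (M ∪ U)) X1 (min k X1.card)
    (min_le_right _ _)
  choose! i hi using h6
  have hP1 : ∀ w ∈ X1, ∀ x : Ed, w <:+ x.1 → x ∉ M ∪ U → r ∉ D x := by
    intro w hw x hwx hx
    obtain ⟨u, hu, huw⟩ := h4 w hw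
    exact hP u hu x (huw.trans hwx) hx
  have hsum : Wt (M ∪ U) (X1 \ K) + Wt (M ∪ U) K = Wt (M ∪ U) X1 := by
    unfold Wt
    exact Finset.sum_sdiff hK
  have hKsum : K.card * x ≤ Wt (M ∪ U) K := by
    unfold Wt
    have := Finset.card_nsmul_le_sum K (fun w => wt (M ∪ U) w) x hx1
    simpa using this
  have hRsum : Wt (M ∪ U) (X1 \ K) ≤ (X1 \ K).card * x := by
    unfold Wt
    have := Finset.sum_le_card_nsmul (X1 \ K) (fun w => wt (M ∪ U) w) x hx2
    simpa using this
  have hcard : (X1 \ K).card = X1.card - min k X1.card := by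
    rw [Finset.card_sdiff_of_subset hK, hKc]
  refine ⟨c, X1 \ K, K.image (fun w => (w, i w)), by omega, ?_, ?_, ?_, ?_, ?_, ?_, ?_, ?_⟩
  · intro w hw w' hw' hne
    exact h3 w (Finset.mem_sdiff.mp hw).1 w' (Finset.mem_sdiff.mp hw').1 hne
  · refine le_trans Finset.card_image_le ?_
    rw [hKc]; exact min_le_left _ _
  · rw [Finset.disjoint_left]
    intro z hz
    rw [Finset.mem_image] at hz
    obtain ⟨w, hw, rfl⟩ := hz
    exact hi w (hK hw)
  · intro B' hB hN
    refine Cov_cut (Cov_mono hB (h5 B r hCov)) ?_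
    intro w hw
    refine ⟨i w, hN (Finset.mem_image_of_mem _ hw), ?_⟩
    exact hP1 w (hK hw) (w, i w) (List.suffix_refl _) (hi w (hK hw))
  · intro w hw
    exact hP1 w (Finset.mem_sdiff.mp hw).1
  · rw [hcard, h1]; omega
  · intro hle
    have : (X1 \ K).card = 0 := by rw [hcard, h1]; omega
    rw [Finset.card_eq_zero] at this
    rw [this]; rfl
  · intro hle
    refine ⟨x, hRsum, ?_⟩
    have hKc' : K.card = k := by rw [hKc, h1]; omega
    rw [hKc'] at hKsum
    omega

/-! ### Breaker wins from every root -/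

/-- A good position for Breaker: at most `n` boxes, of total weight at most `3`. -/
def State (r : Vx) (n : ℕ) (M B : Finset Ed) : Prop :=
  ∃ (U : Finset Ed) (X : Finset W), AC X ∧ Cov B r X ∧
    (∀ w ∈ X, ∀ x : Ed, w <:+ x.1 → x ∉ M ∪ U → r ∉ D x) ∧ X.card ≤ n ∧ Wt (M ∪ U) X ≤ 3

theorem round_step (r : Vx) (n : ℕ) (hn : n ≤ 3) (M B P : Finset Ed) (hS : State r n M B)
    (hP : Legal 56 M B P) : ∃ Q, Legal 7 (M ∪ P) B Q ∧ State r (n - 1) (M ∪ P) (B ∪ Q) := by
  obtain ⟨U, X, hAC, hCov, hpath, hcard, hW⟩ := hS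
  have hpath' : ∀ w ∈ X, ∀ x : Ed, w <:+ x.1 → x ∉ (M ∪ P) ∪ U → r ∉ D x := by
    intro w hw x hwx hx
    refine hpath w hw x hwx (fun hc => hx ?_)
    rcases Finset.mem_union.mp hc with h | h
    · exact Finset.mem_union_left _ (Finset.mem_union_left _ h)
    · exact Finset.mem_union_right _ h
  have hW' : Wt ((M ∪ P) ∪ U) X ≤ 59 := by
    have h1 := Wt_union_le (A := M ∪ U) (P := P) hAC
    have h2 : (M ∪ P) ∪ U = (M ∪ U) ∪ P := by
      ext z; simp only [Finset.mem_union]; tauto
    rw [h2]
    have := hP.1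
    omega
  obtain ⟨c, X', N, h1, h2, h3, h4, h5, h6, h7, h8, h9⟩ :=
    core r (M ∪ P) B U X hAC hCov hpath' 7
  obtain ⟨Q, hQ, hNQ⟩ := exists_reply 7 (M ∪ P) B N h3
    (Disjoint.mono_right Finset.subset_union_left h4)
  have hXc : X'.card ≤ n - 1 := by clear h8 h9; omega
  refine ⟨Q, hQ, U, X', h2, h5 _ Finset.subset_union_left hNQ, h6, hXc, ?_⟩
  by_cases hle : X.card + 2 * c ≤ 7
  · rw [h8 hle]; exact Nat.zero_le _
  · push Not at hle
    obtain ⟨x, hx1, hx2⟩ := h9 hle.le
    clear h8 h9
    have hc : c = 3 := by omega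
    have hX' : X'.card ≤ 2 := by omega
    have hx : x ≤ 2 := by omega
    interval_cases x
    · omega
    · omega
    · omega

theorem exists_climb (P : Finset Ed) : ∀ n (r : Vx), depth r = n → ∃ t : Vx,
    (∀ x : Ed, r ∈ D x → t ∉ D x → x ∈ P) ∧ (t = none ∨ ∃ x₀ : Ed, t = some x₀ ∧ x₀ ∉ P) ∧
    (∀ x : Ed, t ∈ D x → r ∈ D x) := by
  intro n
  induction n with
  | zero =>
    intro r hr
    cases r with
    | none => exact ⟨none, fun x h h' => absurd h h', Or.inl rfl, fun x h => h⟩
    | some x => have := depth_par x; omega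
  | succ n ih =>
    intro r hr
    cases r with
    | none => exact ⟨none, fun x h h' => absurd h h', Or.inl rfl, fun x h => h⟩
    | some y =>
      by_cases hy : y ∈ P
      · have := depth_par y
        obtain ⟨t, h1, h2, h3⟩ := ih (par y) (by omega)
        refine ⟨t, ?_, h2, ?_⟩
        · intro x hx ht
          by_cases hyx : y = x
          · rw [← hyx]; exact hy
          · exact h1 x (D_down hx hyx) ht
        · intro x hx
          exact D_up (h3 x hx)
      · exact ⟨some y, fun x h h' => absurd h h', Or.inr ⟨y, rfl, hy⟩, fun x h => h⟩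

theorem none_notMem_D (x : Ed) : (none : Vx) ∉ D x := by
  rintro ⟨y, hy, _⟩
  exact absurd hy (by simp)

theorem AC_singleton (w : W) : AC {w} := by
  intro u hu u' hu' hne
  rw [Finset.mem_singleton] at hu hu'
  exact absurd (hu.trans hu'.symm) hne

theorem Wt_singleton_le (A : Finset Ed) (w : W) : Wt A {w} ≤ A.card := by
  unfold Wt wt
  rw [Finset.sum_singleton]
  exact Finset.card_filter_le _ _

theorem first_step (r : Vx) (P : Finset Ed) (hP : P.card = 56) :
    ∃ Q, Legal 7 P ∅ Q ∧ State r 3 P Q := by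
  obtain ⟨t, ht1, ht2, ht3⟩ := exists_climb P _ r rfl
  -- the common final computation
  have final : ∀ (B₀ U : Finset Ed) (w₀ : W), B₀.card ≤ 1 → Disjoint B₀ P → Cov B₀ r {w₀} →
      (∀ x : Ed, w₀ <:+ x.1 → x ∉ P ∪ U → r ∉ D x) → U.card ≤ 15 →
      ∃ Q, Legal 7 P ∅ Q ∧ State r 3 P Q := by
    intro B₀ U w₀ hB₀ hB₀P hCov hpath hU
    obtain ⟨c, X', N, h1, h2, h3, h4, h5, h6, h7, h8, h9⟩ :=
      core r P B₀ U {w₀} (AC_singleton w₀) hCov
        (by intro w hw; rw [Finset.mem_singleton] at hw; rw [hw]; exact hpath) 6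
    have hW : Wt (P ∪ U) {w₀} ≤ 71 := by
      have h10 := Wt_singleton_le (P ∪ U) w₀
      have h11 := Finset.card_union_le P U
      omega
    obtain ⟨Q, hQ, hNQ⟩ := exists_reply 7 P ∅ (B₀ ∪ N) (by
      have := Finset.card_union_le B₀ N
      omega) (by
      rw [Finset.disjoint_union_left]
      exact ⟨hB₀P, Disjoint.mono_right Finset.subset_union_left h4⟩)
    rw [Finset.empty_union] at hNQ
    have hcard1 : ({w₀} : Finset W).card = 1 := Finset.card_singleton w₀
    rw [hcard1] at h7 h8 h9
    have hXc : X'.card ≤ 3 := by clear h8 h9; omega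
    refine ⟨Q, hQ, U, X', h2, h5 Q (Finset.subset_union_left.trans hNQ)
      (Finset.subset_union_right.trans hNQ), h6, hXc, ?_⟩
    by_cases hle : 1 + 2 * c ≤ 6
    · rw [h8 hle]; exact Nat.zero_le _
    · push Not at hle
      obtain ⟨x, hx1, hx2⟩ := h9 hle.le
      clear h8 h9
      have hc : c = 3 ∨ c = 4 := by omega
      have hx : x ≤ 4 := by omega
      rcases hc with rfl | rfl
      · have hX' : X'.card = 1 := by omega
        rw [hX'] at hx1
        omega
      · have hX' : X'.card = 3 := by omega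
        rw [hX'] at hx1
        omega
  rcases ht2 with rfl | ⟨x₀, rfl, hx₀⟩
  · refine final ∅ ∅ [] (by simp) (by simp) ?_ ?_ (by simp)
    · refine Set.Finite.subset (Set.finite_singleton (none : Vx)) ?_
      rintro v ⟨_, hv⟩
      cases v with
      | none => rfl
      | some y => exact absurd ⟨y, rfl, List.nil_suffix⟩ (hv [] (Finset.mem_singleton_self _))
    · intro x _ hx hr
      exact hx (Finset.mem_union_left _ (ht1 x hr (none_notMem_D x)))
  · obtain ⟨w₀, i₀⟩ := x₀
    refine final {(w₀, i₀)} ((Finset.univ.filter (fun j : Fin 15 => i₀ ≤ j)).image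
      (fun j => ((w₀, j) : Ed))) w₀ (by simp) (by simpa using hx₀) ?_ ?_ ?_
    · refine Set.Finite.subset Set.finite_empty ?_
      rintro v ⟨hv1, hv2⟩
      exfalso
      have hr : r ∈ D (w₀, i₀) := ht3 _ ⟨(w₀, i₀), rfl, Or.inl ⟨rfl, le_refl _⟩⟩
      have h1 := comp_inside (x := (w₀, i₀)) (B := (({(w₀, i₀)} : Finset Ed) : Set Ed))
        (by simp) hr v hv1
      obtain ⟨y, rfl, hy⟩ := h1
      refine hv2 w₀ (Finset.mem_singleton_self _) ⟨y, rfl, ?_⟩
      rcases hy with ⟨h2, _⟩ | ⟨c, h2⟩
      · rw [h2]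
      · exact suffix_of_cons h2
    · intro x hwx hx hr
      refine hx ?_
      by_cases ht : (some ((w₀, i₀) : Ed) : Vx) ∈ D x
      · obtain ⟨y, hy, hy2⟩ := ht
        have hy' := Option.some.inj hy
        subst hy'
        rcases hy2 with ⟨h2, h3⟩ | ⟨c, h2⟩
        · refine Finset.mem_union_right _ (Finset.mem_image.mpr ⟨x.2, ?_, ?_⟩)
          · rw [Finset.mem_filter]; exact ⟨Finset.mem_univ _, h3⟩
          · exact Prod.ext h2 rfl
        · exfalso
          have h4 := hwx.length_le
          have h5 : (c :: x.1).length ≤ w₀.length := h2.length_le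
          simp only [List.length_cons] at h5
          omega
      · exact Finset.mem_union_left _ (ht1 x hr ht)
    · refine le_trans Finset.card_image_le ?_
      refine le_trans (Finset.card_filter_le _ _) ?_
      simp

theorem breaker_wins (r : Vx) : BreakerWins T 56 7 r ∅ := by
  refine breakerWins_of_stages (fun k M B => match k with
    | 0 => M = ∅ ∧ B = ∅
    | 1 => State r 3 M B
    | 2 => State r 2 M B
    | 3 => State r 1 M B
    | 4 => State r 0 M B
    | _ => True) ⟨rfl, rfl⟩ ?_ 4 ?_
  · intro k M B P hSt hP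
    match k, hSt with
    | 0, hSt =>
      obtain ⟨rfl, rfl⟩ := hSt
      obtain ⟨Q, h1, h2⟩ := first_step r P hP.1
      refine ⟨Q, ?_, ?_⟩
      · rw [Finset.empty_union]; exact h1
      · show State r 3 (∅ ∪ P) (∅ ∪ Q)
        rw [Finset.empty_union, Finset.empty_union]; exact h2
    | 1, hSt => exact round_step r 3 (by norm_num) M B P hSt hP
    | 2, hSt => exact round_step r 2 (by norm_num) M B P hSt hP
    | 3, hSt => exact round_step r 1 (by norm_num) M B P hSt hP
    | (n + 4), _ =>
      obtain ⟨Q, h1, _⟩ := exists_legal 7 (M ∪ P) B ∅ (by simp) (by simp)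
      exact ⟨Q, h1, trivial⟩
  · intro M B hSt
    obtain ⟨U, X, _, hCov, _, hcard, _⟩ := (hSt : State r 0 M B)
    have : X = ∅ := Finset.card_eq_zero.mp (by omega)
    subst this
    exact Cov_empty hCov

/-! ### Maker survives with a head start -/

/-- The root branching vertex. -/
def v₁ : Vx := some ([], 0)

/-- Joined by an edge in `M`. -/
def AdjIn (M : Finset Ed) (u v : Vx) : Prop := ∃ e ∈ M, T.ends e = s(u, v)

/-- The path above `w` starts at a vertex joined to the root by edges of `M`. -/
def Sec (M : Finset Ed) (w : W) : Prop := ReflTransGen (AdjIn M) v₁ (par (w, 14))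

/-- No edge of `B` lies in the region of `w`. -/
def Clean (B : Finset Ed) (w : W) : Prop := ∀ x ∈ B, ¬ w <:+ x.1

theorem Sec_mono {M M' : Finset Ed} (h : M ⊆ M') {w : W} (hs : Sec M w) : Sec M' w := by
  have key : ∀ a b, AdjIn M a b → AdjIn M' a b := by
    rintro a b ⟨e, he, h2⟩
    exact ⟨e, h he, h2⟩
  exact ReflTransGen.mono key _ _ hs

/-- Walking down a path. -/
theorem descend (R : Vx → Prop) (u : W) (h0 : R (par (u, 14)))
    (hs : ∀ i : Fin 15, R (par (u, i)) → R (some (u, i))) : ∀ j : Fin 15, R (some (u, j)) := by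
  have key : ∀ n (j : Fin 15), 14 - j.val = n → R (some (u, j)) := by
    intro n
    induction n with
    | zero =>
      intro j hj
      have : j = 14 := by
        apply Fin.ext
        show j.val = 14
        have := j.isLt
        omega
      rw [this]
      exact hs 14 h0
    | succ n ih =>
      intro j hj
      have hj' : j.val < 14 := by omega
      apply hs
      rw [par_lt hj']
      apply ih
      show 14 - (j.val + 1) = n
      omega
  intro j
  exact key _ j rfl

theorem Sec_kid {M : Finset Ed} {w : W} (hs : Sec M w) (h : ∀ i : Fin 15, (w, i) ∈ M)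
    (c : Fin 3) : Sec M (c :: w) := by
  unfold Sec
  rw [par_cons]
  refine descend (fun v => ReflTransGen (AdjIn M) v₁ v) w hs ?_ 0
  intro i hi
  exact ReflTransGen.tail hi ⟨(w, i), h i, Sym2.eq_swap⟩

theorem RV_subset {M B : Finset Ed} (hd : Disjoint M B) {w : W} (hs : Sec M w)
    (hc : Clean B w) : RV w ⊆ component T (B : Set Ed) v₁ := by
  have h0 : par (w, 14) ∈ component T (B : Set Ed) v₁ := by
    have key : ∀ a b, AdjIn M a b → AdjOff T (B : Set Ed) a b := by
      rintro a b ⟨e, he, h2⟩
      exact ⟨e, fun hc => Finset.disjoint_left.mp hd he (by exact_mod_cast hc), h2⟩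
    exact ReflTransGen.mono key _ _ hs
  have hstep : ∀ u : W, w <:+ u → ∀ i : Fin 15, par (u, i) ∈ component T (B : Set Ed) v₁ →
      (some (u, i) : Vx) ∈ component T (B : Set Ed) v₁ := by
    intro u hu i hi
    refine ReflTransGen.tail hi (adj_par' _ ?_)
    intro hmem
    exact hc (u, i) (by exact_mod_cast hmem) hu
  have key : ∀ v : W, ∀ j : Fin 15, (some (v ++ w, j) : Vx) ∈ component T (B : Set Ed) v₁ := by
    intro v
    induction v with
    | nil =>
      exact descend (fun z => z ∈ component T (B : Set Ed) v₁) w h0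
        (hstep w (List.suffix_refl _))
    | cons c v ih =>
      refine descend (fun z => z ∈ component T (B : Set Ed) v₁) (c :: v ++ w) ?_
        (hstep _ (List.suffix_append _ _))
      show par (c :: (v ++ w), 14) ∈ _
      rw [par_cons]
      exact ih 0
  rintro v ⟨y, rfl, hy⟩
  obtain ⟨u, hu⟩ := hy
  have := key u y.2
  rw [hu] at this
  exact this

theorem RV_infinite (w : W) : (RV w).Infinite := by
  refine Set.infinite_of_injective_forall_mem
    (f := fun n : ℕ => (some (List.replicate n (0 : Fin 3) ++ w, (0 : Fin 15)) : Vx)) ?_ ?_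
  · intro a b hab
    have h1 := (Prod.mk.inj (Option.some.inj hab)).1
    have h2 := congrArg List.length h1
    simpa using h2
  · intro n
    exact ⟨_, rfl, List.suffix_append _ _⟩

/-- Only few boxes can be spoiled by a move of Breaker. -/
theorem exists_good {B Q : Finset Ed} {Y : Finset W} (hY : AC Y) (hc : ∀ y ∈ Y, Clean B y)
    (k : ℕ) (hk : k + Q.card ≤ Y.card) :
    ∃ Z ⊆ Y, Z.card = k ∧ ∀ y ∈ Z, Clean (B ∪ Q) y := by
  classical
  have hbad : (Y.filter (fun y => ¬ Clean (B ∪ Q) y)).card ≤ Q.card := by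
    have hx : ∀ y ∈ Y.filter (fun y => ¬ Clean (B ∪ Q) y), ∃ x ∈ Q, y <:+ x.1 := by
      intro y hy
      rw [Finset.mem_filter] at hy
      obtain ⟨hyY, hy2⟩ := hy
      unfold Clean at hy2
      push Not at hy2
      obtain ⟨x, hx, hyx⟩ := hy2
      rcases Finset.mem_union.mp hx with h | h
      · exact absurd hyx (hc y hyY x h)
      · exact ⟨x, h, hyx⟩
    choose! f hf1 hf2 using hx
    refine Finset.card_le_card_of_injOn f (fun y hy => hf1 y hy) ?_
    intro y hy y' hy' heq
    by_contra hne
    have h1 := hf2 y hy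
    have h2 := hf2 y' hy'
    rw [heq] at h1
    exact hY y (Finset.mem_filter.mp hy).1 y' (Finset.mem_filter.mp hy').1 hne _ h1 h2
  have hgood : k ≤ (Y.filter (fun y => Clean (B ∪ Q) y)).card := by
    have := Finset.card_filter_add_card_filter_not (s := Y) (fun y => Clean (B ∪ Q) y)
    omega
  obtain ⟨Z, hZ, hZc⟩ := Finset.exists_subset_card_eq hgood
  refine ⟨Z, hZ.trans (Finset.filter_subset _ _), hZc, fun y hy => ?_⟩
  exact (Finset.mem_filter.mp (hZ hy)).2

/-- Expansion of all boxes in `S`. -/
def expandAll (X S : Finset W) : Finset W := (X \ S) ∪ S.biUnion kids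

theorem mem_expandAll {X S : Finset W} {y : W} :
    y ∈ expandAll X S ↔ (y ∈ X ∧ y ∉ S) ∨ ∃ w ∈ S, ∃ c : Fin 3, y = c :: w := by
  unfold expandAll
  rw [Finset.mem_union, Finset.mem_sdiff, Finset.mem_biUnion]
  simp only [mem_kids]

theorem AC_expandAll {X S : Finset W} (hX : AC X) (hS : S ⊆ X) : AC (expandAll X S) := by
  intro u hu u' hu' hne z hz hz'
  rcases mem_expandAll.mp hu with ⟨h1, h2⟩ | ⟨w, hw, c, rfl⟩
  · rcases mem_expandAll.mp hu' with ⟨h3, h4⟩ | ⟨w', hw', c', rfl⟩
    · exact hX u h1 u' h3 hne z hz hz'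
    · have : u ≠ w' := fun hc => h2 (hc ▸ hw')
      exact hX u h1 w' (hS hw') this z hz (suffix_of_cons hz')
  · rcases mem_expandAll.mp hu' with ⟨h3, h4⟩ | ⟨w', hw', c', rfl⟩
    · have : w ≠ u' := fun hc => h4 (hc ▸ hw)
      exact hX w (hS hw) u' h3 this z (suffix_of_cons hz) hz'
    · by_cases hww : w = w'
      · subst hww
        exact hne (suffix_unique hz hz' (by simp))
      · exact hX w (hS hw) w' (hS hw') hww z (suffix_of_cons hz) (suffix_of_cons hz')

theorem card_expandAll {X S : Finset W} (hX : AC X) (hS : S ⊆ X) :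
    (expandAll X S).card = X.card + 2 * S.card := by
  unfold expandAll
  rw [Finset.card_union_of_disjoint, Finset.card_biUnion, Finset.card_sdiff_of_subset hS]
  · have h1 : ∑ u ∈ S, (kids u).card = 3 * S.card := by
      rw [Finset.sum_congr rfl (fun u _ => card_kids u)]
      simp [mul_comm]
    have h2 := Finset.card_le_card hS
    omega
  · intro u hu u' hu' hne
    show Disjoint _ _
    rw [Finset.disjoint_left]
    intro x hx hx'
    obtain ⟨c, rfl⟩ := mem_kids.mp hx
    obtain ⟨c', h⟩ := mem_kids.mp hx'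
    injection h with h1 h2
    exact hne h2
  · rw [Finset.disjoint_left]
    intro x hx hx'
    rw [Finset.mem_biUnion] at hx'
    obtain ⟨w, hw, hx'⟩ := hx'
    obtain ⟨c, rfl⟩ := mem_kids.mp hx'
    rw [Finset.mem_sdiff] at hx
    have hne : c :: w ≠ w := by
      intro h
      have := congrArg List.length h
      simp at this
    exact hX _ hx.1 w (hS hw) hne (c :: w) (List.suffix_refl _) (List.suffix_cons c w)

/-- The edges of the path above `w`. -/
def path (w : W) : Finset Ed := Finset.univ.image (fun i : Fin 15 => ((w, i) : Ed))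

theorem mem_path {w : W} {x : Ed} : x ∈ path w ↔ x.1 = w := by
  unfold path
  rw [Finset.mem_image]
  constructor
  · rintro ⟨i, _, rfl⟩; rfl
  · intro h; exact ⟨x.2, Finset.mem_univ _, Prod.ext h.symm rfl⟩

theorem card_path (w : W) : (path w).card = 15 := by
  unfold path
  rw [Finset.card_image_of_injective]
  · simp
  · intro a b hab
    exact (Prod.mk.inj hab).2

/-- The safe positions of Maker. -/
def Safe (M B : Finset Ed) : Prop :=
  Disjoint M B ∧
  ((∃ X : Finset W, X.card = 5 ∧ AC X ∧ ∀ w ∈ X, Sec M w ∧ Clean B w) ∨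
   (∃ X : Finset W, X.card = 4 ∧ AC X ∧ ∀ w ∈ X, Sec M w ∧ Clean B w ∧ (w, 14) ∈ M))

theorem safe_infinite (M B : Finset Ed) (h : Safe M B) :
    (component T (B : Set Ed) v₁).Infinite := by
  obtain ⟨hd, ⟨X, hX, _, hX2⟩ | ⟨X, hX, _, hX2⟩⟩ := h
  · obtain ⟨w, hw⟩ : X.Nonempty := by rw [← Finset.card_pos]; omega
    obtain ⟨h1, h2⟩ := hX2 w hw
    exact (RV_infinite w).mono (RV_subset hd h1 h2)
  · obtain ⟨w, hw⟩ : X.Nonempty := by rw [← Finset.card_pos]; omega
    obtain ⟨h1, h2, _⟩ := hX2 w hw
    exact (RV_infinite w).mono (RV_subset hd h1 h2)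

theorem Clean_mono {B : Finset Ed} {w u : W} (h : w <:+ u) (hc : Clean B w) : Clean B u :=
  fun x hx hux => hc x hx (h.trans hux)

theorem safe_step (M B : Finset Ed) (h : Safe M B) : ∃ P, Legal 56 M B P ∧
    ∀ Q, Legal 7 (M ∪ P) B Q → Safe (M ∪ P) (B ∪ Q) := by
  obtain ⟨hd, hX⟩ := h
  -- disjointness is preserved
  have hdis : ∀ P Q, Legal 56 M B P → Legal 7 (M ∪ P) B Q → Disjoint (M ∪ P) (B ∪ Q) := by
    intro P Q hP hQ
    rw [Finset.disjoint_left]
    intro x hx hx'
    rcases Finset.mem_union.mp hx' with h1 | h1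
    · rcases Finset.mem_union.mp hx with h2 | h2
      · exact Finset.disjoint_left.mp hd h2 h1
      · exact Finset.disjoint_left.mp hP.2 h2 (Finset.mem_union_right _ h1)
    · exact Finset.disjoint_left.mp hQ.2 h1 (Finset.mem_union_left _ hx)
  rcases hX with ⟨X, hXc, hAC, hX2⟩ | ⟨X, hXc, hAC, hX2⟩
  · obtain ⟨S, hS, hSc⟩ := Finset.exists_subset_card_eq (s := X) (n := 3) (by omega)
    set Y := expandAll X S with hYdef
    have hYAC : AC Y := AC_expandAll hAC hS
    have hYc : Y.card = 11 := by rw [hYdef, card_expandAll hAC hS]; omega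
    have hYclean : ∀ y ∈ Y, Clean B y := by
      intro y hy
      rcases mem_expandAll.mp hy with ⟨h1, _⟩ | ⟨w, hw, c, rfl⟩
      · exact (hX2 y h1).2
      · exact Clean_mono (List.suffix_cons c w) (hX2 w (hS hw)).2
    set N := (S.biUnion path) ∪ Y.image (fun y => ((y, 14) : Ed)) with hNdef
    have hNc : N.card ≤ 56 := by
      refine le_trans (Finset.card_union_le _ _) ?_
      have h1 : (S.biUnion path).card ≤ 45 := by
        refine le_trans Finset.card_biUnion_le ?_
        rw [Finset.sum_congr rfl (fun u _ => card_path u)]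
        simp [hSc]
      have h2 : (Y.image (fun y => ((y, 14) : Ed))).card ≤ 11 := by
        refine le_trans Finset.card_image_le ?_
        omega
      omega
    have hNB : Disjoint N B := by
      rw [Finset.disjoint_left]
      intro x hx hxB
      rcases Finset.mem_union.mp hx with h1 | h1
      · rw [Finset.mem_biUnion] at h1
        obtain ⟨w, hw, h1⟩ := h1
        rw [mem_path] at h1
        exact (hX2 w (hS hw)).2 x hxB (by rw [h1])
      · rw [Finset.mem_image] at h1
        obtain ⟨y, hy, rfl⟩ := h1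
        exact hYclean y hy _ hxB (List.suffix_refl _)
    obtain ⟨P, hP, hNP⟩ := exists_legal 56 M B (N \ M)
      (le_trans (Finset.card_le_card Finset.sdiff_subset) hNc) (by
        rw [Finset.disjoint_union_right]
        exact ⟨Finset.sdiff_disjoint, Disjoint.mono_left Finset.sdiff_subset hNB⟩)
    have hNM : N ⊆ M ∪ P := by
      intro x hx
      by_cases hxM : x ∈ M
      · exact Finset.mem_union_left _ hxM
      · exact Finset.mem_union_right _ (hNP (Finset.mem_sdiff.mpr ⟨hx, hxM⟩))
    refine ⟨P, hP, fun Q hQ => ⟨hdis P Q hP hQ, Or.inr ?_⟩⟩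
    obtain ⟨Z, hZY, hZc, hZ⟩ := exists_good (Q := Q) hYAC hYclean 4 (by rw [hQ.1, hYc])
    refine ⟨Z, hZc, fun w hw w' hw' => hYAC w (hZY hw) w' (hZY hw'), fun y hy => ⟨?_, hZ y hy, ?_⟩⟩
    · rcases mem_expandAll.mp (hZY hy) with ⟨h1, _⟩ | ⟨w, hw, c, rfl⟩
      · exact Sec_mono Finset.subset_union_left (hX2 y h1).1
      · refine Sec_kid (Sec_mono Finset.subset_union_left (hX2 w (hS hw)).1) (fun i => ?_) c
        exact hNM (Finset.mem_union_left _ (Finset.mem_biUnion.mpr ⟨w, hw, mem_path.mpr rfl⟩))
    · exact hNM (Finset.mem_union_right _ (Finset.mem_image_of_mem _ (hZY hy)))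
  · set Y := expandAll X X with hYdef
    have hYAC : AC Y := AC_expandAll hAC (Finset.Subset.refl _)
    have hYc : Y.card = 12 := by
      rw [hYdef, card_expandAll hAC (Finset.Subset.refl _)]; omega
    have hYclean : ∀ y ∈ Y, Clean B y := by
      intro y hy
      rcases mem_expandAll.mp hy with ⟨h1, _⟩ | ⟨w, hw, c, rfl⟩
      · exact (hX2 y h1).2.1
      · exact Clean_mono (List.suffix_cons c w) (hX2 w hw).2.1
    set N := X.biUnion (fun w => (path w).erase (w, 14)) with hNdef
    have hNc : N.card ≤ 56 := by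
      refine le_trans Finset.card_biUnion_le ?_
      have h1 : ∀ w ∈ X, ((path w).erase (w, 14)).card = 14 := by
        intro w _
        have hm : ((w, 14) : Ed) ∈ path w := mem_path.mpr rfl
        rw [Finset.card_erase_of_mem hm, card_path]
      rw [Finset.sum_congr rfl h1]
      simp [hXc]
    have hNB : Disjoint N B := by
      rw [Finset.disjoint_left]
      intro x hx hxB
      rw [Finset.mem_biUnion] at hx
      obtain ⟨w, hw, h1⟩ := hx
      have h2 := mem_path.mp (Finset.mem_of_mem_erase h1)
      exact (hX2 w hw).2.1 x hxB (by rw [h2])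
    obtain ⟨P, hP, hNP⟩ := exists_legal 56 M B (N \ M)
      (le_trans (Finset.card_le_card Finset.sdiff_subset) hNc) (by
        rw [Finset.disjoint_union_right]
        exact ⟨Finset.sdiff_disjoint, Disjoint.mono_left Finset.sdiff_subset hNB⟩)
    have hNM : ∀ w ∈ X, ∀ i : Fin 15, (w, i) ∈ M ∪ P := by
      intro w hw i
      by_cases hxM : ((w, i) : Ed) ∈ M
      · exact Finset.mem_union_left _ hxM
      · refine Finset.mem_union_right _ (hNP (Finset.mem_sdiff.mpr ⟨?_, hxM⟩))
        refine Finset.mem_biUnion.mpr ⟨w, hw, Finset.mem_erase.mpr ⟨?_, mem_path.mpr rfl⟩⟩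
        intro hc
        rw [hc] at hxM
        exact hxM (hX2 w hw).2.2
    refine ⟨P, hP, fun Q hQ => ⟨hdis P Q hP hQ, Or.inl ?_⟩⟩
    obtain ⟨Z, hZY, hZc, hZ⟩ := exists_good (Q := Q) hYAC hYclean 5 (by rw [hQ.1, hYc])
    refine ⟨Z, hZc, fun w hw w' hw' => hYAC w (hZY hw) w' (hZY hw'), fun y hy => ⟨?_, hZ y hy⟩⟩
    rcases mem_expandAll.mp (hZY hy) with ⟨h1, h2⟩ | ⟨w, hw, c, rfl⟩
    · exact absurd h1 h2
    · exact Sec_kid (Sec_mono Finset.subset_union_left (hX2 w hw).1) (hNM w hw) c

/-- The head start: one of the three paths below the root. -/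
def F₀ : Finset Ed := path [0]

theorem safe_start : Safe F₀ ∅ := by
  refine ⟨Finset.disjoint_empty_right _, Or.inl ?_⟩
  have h1 : AC (expand {([] : W)} []) := AC_expand (AC_singleton []) (Finset.mem_singleton_self _)
  have hmem : ([0] : W) ∈ expand {([] : W)} [] :=
    Finset.mem_union_right _ (mem_kids.mpr ⟨0, rfl⟩)
  have hsec : ∀ c : Fin 3, Sec F₀ [c] := by
    intro c
    unfold Sec
    rw [par_cons]
    exact ReflTransGen.refl
  refine ⟨expand (expand {([] : W)} []) [0], ?_, AC_expand h1 hmem, ?_⟩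
  · rw [card_expand h1 hmem, card_expand (AC_singleton []) (Finset.mem_singleton_self _)]
    simp
  · intro w hw
    refine ⟨?_, fun x hx => absurd hx (Finset.notMem_empty x)⟩
    rcases expand_origin hmem hw with ⟨h2, _⟩ | ⟨c, rfl⟩
    · rcases expand_origin (Finset.mem_singleton_self _) h2 with ⟨h3, h4⟩ | ⟨c, rfl⟩
      · exact absurd (Finset.mem_singleton.mp h3) h4
      · exact hsec c
    · exact Sec_kid (hsec 0) (fun i => mem_path.mpr rfl) c

/-- **Disproof of Q1.**  There are an infinite connected graph `G` (without loops or multiple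
edges and locally finite) and `p = 56`, `q = 7` such that Breaker wins the `(p,q)`-percolation game
on `(G, v)` for every root `v`, but for some root `v₀` and some finite head start `F` of Maker,
Breaker has no winning strategy in the game on `(G, v₀)` with head start `F`. -/
theorem result : ∃ (V E : Type) (_ : DecidableEq E) (G : MultiGraph V E), Infinite V ∧
    IsConnected G ∧ Function.Injective G.ends ∧ (∀ e, ¬ (G.ends e).IsDiag) ∧
    (∀ v, {e | v ∈ G.ends e}.Finite) ∧ (∀ v, BreakerWins G 56 7 v ∅) ∧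
    ∃ (v₀ : V) (F : Finset E), ¬ BreakerWins G 56 7 v₀ F :=
  ⟨Vx, Ed, inferInstance, T, inferInstance, isConnected, ends_injective, not_diag,
    locallyFinite, breaker_wins, v₁, F₀,
    not_breakerWins_of_safe Safe safe_start safe_step safe_infinite⟩

end Pool.Agent.Results.MP_aefbf4_co.HeadStartMatters
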